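import Pool.Agent.Lib.MP_320961_gt.HP.Red

/-! The pseudo-Riemannian hyperbolic spaces `H^(q+2,q)`, `q ≥ 2` even, have no compact quotient. -/

open Matrix LieAlgebra.Orthogonal

namespace Pool.Agent.Results.MP_320961_gt.SpaceForm

/-- `G` is a closed subgroup of `O(q+2, q+1)` with `G · O(q+2, q) = O(q+2, q+1)`, `H` is the
stabiliser in `G` of a negative basis vector. No subgroup of `G` acts properly discontinuously on
`G / H` with compact quotient. -/
theorem result (q : ℕ) (hq : Even q) (h2 : 2 ≤ q) (G : Subgroup (GL (Fin (q + 2) ⊕ Fin (q + 1)) ℝ))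
    (hcl : IsClosed (G : Set (GL (Fin (q + 2) ⊕ Fin (q + 1)) ℝ)))
    (hG : ∀ g ∈ G, g.valᵀ * indefiniteDiagonal (Fin (q + 2)) (Fin (q + 1)) ℝ * g.val =
      indefiniteDiagonal (Fin (q + 2)) (Fin (q + 1)) ℝ)
    (e : Fin (q + 2) ⊕ Fin (q + 1) → ℝ) (he : e = Pi.single (Sum.inr (Fin.last q)) 1)
    (ht : ∀ g : GL (Fin (q + 2) ⊕ Fin (q + 1)) ℝ,
      g.valᵀ * indefiniteDiagonal (Fin (q + 2)) (Fin (q + 1)) ℝ * g.val =
        indefiniteDiagonal (Fin (q + 2)) (Fin (q + 1)) ℝ → ∃ g' ∈ G, g'.val *ᵥ e = g.val *ᵥ e)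
    (H : Subgroup G) (hH : ∀ g : G, g ∈ H ↔ g.val.val *ᵥ e = e) (Γ : Subgroup G)
    (hp : ProperlyDiscontinuousSMul Γ (G ⧸ H)) :
    ¬ CompactSpace (MulAction.orbitRel.Quotient Γ (G ⧸ H)) := by
  subst he
  obtain rfl : H = MulAction.stabilizer G
      (Pi.single (Sum.inr (Fin.last q)) 1 : Fin (q + 2) ⊕ Fin (q + 1) → ℝ) := Subgroup.ext hH
  exact HP.no_form (by simp) (by simpa using hq.add_one) (by simpa using h2) (Fin.last q) G hcl hG
    ht Γ hp

end Pool.Agent.Results.MP_320961_gt.SpaceForm
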